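import Pool.Agent.H84.SL.Targets

/-!
# MP_70ba79_ag, board `slg_modules`: row FB
-/

set_option autoImplicit false

namespace Pool.Agent.H79.SL

open MvPolynomial SC Pool.Agent.H27.LV Pool.Agent.H84.SM Pool.Agent.H84.SL

lemma pole_mul {k K0 K : Type} [Field k] [Field K0] [Algebra k K0] [Field K] [Algebra k K]
    (ι : K0 →ₐ[k] K) (x0 : Fin 3 → K0) (v : DV k K) (w : DV k K0) (e : ℕ)
    (h : ∀ z, v.ord (ι z) = e * w.ord z) :
    poleOrder v (fun i => ι (x0 i)) = e * poleOrder w x0 := by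
  have h1 : ∀ i, (-(v.ord (ι (x0 i)))).toNat = e * (-(w.ord (x0 i))).toNat := by
    intro i
    rw [h]
    rcases le_total 0 (w.ord (x0 i)) with h2 | h2
    · have h3 : (0 : ℤ) ≤ (e : ℤ) * w.ord (x0 i) := mul_nonneg (Int.natCast_nonneg e) h2
      rw [Int.toNat_of_nonpos (by omega), Int.toNat_of_nonpos (by omega), mul_zero]
    · obtain ⟨p, hp⟩ := Int.eq_ofNat_of_zero_le (neg_nonneg.2 h2)
      have h3 : -((e : ℤ) * w.ord (x0 i)) = ((e * p : ℕ) : ℤ) := by
        push_cast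
        rw [← hp]
        ring
      rw [h3, hp, Int.toNat_natCast, Int.toNat_natCast]
  have h2 : poleOrder v (fun i => ι (x0 i)) =
      Finset.univ.sup fun i => e * (-(w.ord (x0 i))).toNat := by
    unfold poleOrder
    exact Finset.sup_congr rfl fun i _ => h1 i
  rw [h2]
  apply le_antisymm
  · refine Finset.sup_le fun i _ => ?_
    exact Nat.mul_le_mul_left e
      (Finset.le_sup (f := fun i => (-(w.ord (x0 i))).toNat) (Finset.mem_univ i))
  · obtain ⟨i, -, hi⟩ := Finset.exists_mem_eq_sup (Finset.univ : Finset (Fin 3))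
      Finset.univ_nonempty (fun i => (-(w.ord (x0 i))).toNat)
    have h4 : poleOrder w x0 = (-(w.ord (x0 i))).toNat := hi
    rw [h4]
    exact Finset.le_sup (f := fun i => e * (-(w.ord (x0 i))).toNat) (Finset.mem_univ i)

theorem pf_FB (hX1 : T_X1) (hDGC : T_DGC) (hLRH : T_LRH) (hMAIN : T_MAIN) (hPRM : T_PRM) :
    T_FB := by
  classical
  intro k _ _ _ G d hd hsm
  obtain ⟨B1, hB1⟩ := hMAIN k G d hd hsm
  obtain ⟨N, Ψ, hΨ, hΨh, hX⟩ := hX1 k G d (by omega) hsm B1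
  refine ⟨B1, N, Ψ, hΨ, hΨh, ?_⟩
  intro K _ _ _ htr D hD x S hx hne hnc
  rcases hPRM k G d hsm.1 K htr D hD x S hx with hc | hc
  · exfalso
    obtain ⟨i, hi⟩ := hnc
    exact hi (hc i)
  obtain ⟨K0, iF, iA, iE, ι, x0, D0, μ, S1, htr0, hD0, hιx, hprim, hμ, hDι, hcrv1, hcard⟩ := hc
  have hxι : x = fun i => ι (x0 i) := funext fun i => (hιx i).symm
  have hev : ∀ P : MvPolynomial (Fin 3) k, aeval x P = ι (aeval x0 P) := by
    intro P
    rw [hxι]
    exact (comp_aeval_apply x0 ι P).symm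
  have hone : ∃ j, x0 j = 1 := hcrv1.one
  -- the smaller set of places
  obtain ⟨S0, hS0⟩ : ∃ S0 : Finset (DV k K0), S0 = S1.filter
      (fun w => w.ord (aeval x0 G) ≠ -(d * poleOrder w x0)) := ⟨_, rfl⟩
  have hcrv0 : Crv G d x0 S0 := by
    refine ⟨hone, hcrv1.ne, ?_⟩
    intro w hw
    by_cases h1 : w ∈ S1
    · by_contra h2
      apply hw
      rw [hS0]
      exact Finset.mem_filter.2 ⟨h1, h2⟩
    · exact hcrv1.off w h1
  obtain ⟨M, hM, hdeg, hRH⟩ := hLRH k K0 K ι htr0 htr D0 D hD0 hD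
  have hRH0 := hRH S0 S (by
    intro w hw v e he hve
    by_contra hv
    have h1 := hx.off v hv
    rw [hev, hve, hxι, pole_mul ι x0 v w e hve] at h1
    rw [hS0] at hw
    apply (Finset.mem_filter.1 hw).2
    have h2 : (e : ℤ) ≠ 0 := by
      have : e ≠ 0 := by omega
      exact_mod_cast this
    apply mul_left_cancel₀ h2
    rw [h1]
    push_cast
    ring)
  obtain ⟨e, Φ, he, hΦ, hΦh, hΦx⟩ := hB1 K0 htr0 D0 hD0 x0 S0 hcrv0
  have hde : deg k x0 ≤ e := hDGC k K0 htr0 x0 hprim hone e Φ hΦ hΦh hΦx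
  have hchi : 1 ≤ canDeg D0 + S0.card := by
    by_contra hcon
    have hle : canDeg D0 + S0.card ≤ 0 := by omega
    rw [max_eq_left (by omega : canDeg D0 + S0.card ≤ 1), mul_one] at he
    have h1 : e ≤ B1 := by exact_mod_cast he
    apply hne
    rw [hev, hX K0 htr0 D0 hD0 x0 S0 hprim hcrv0 (hde.trans h1) hle, map_zero]
  rw [max_eq_right hchi] at he
  have hM' : (1 : ℤ) ≤ M := by exact_mod_cast hM
  have hd2 : (deg k x0 : ℤ) ≤ B1 * (canDeg D0 + S0.card) := le_trans (by exact_mod_cast hde) he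
  refine ⟨?_, ?_⟩
  · nlinarith
  · have h3 : deg k x = M * deg k x0 := by
      rw [hxι]
      exact hdeg x0
    rw [h3]
    push_cast
    have hB0 : (0 : ℤ) ≤ B1 := Int.natCast_nonneg B1
    calc (M : ℤ) * (deg k x0 : ℤ) ≤ M * (B1 * (canDeg D0 + S0.card)) :=
          mul_le_mul_of_nonneg_left hd2 (by omega)
      _ = B1 * (M * (canDeg D0 + S0.card)) := by ring
      _ ≤ B1 * (canDeg D + S.card) := mul_le_mul_of_nonneg_left hRH0 hB0

end Pool.Agent.H79.SL
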