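import Pool.Agent.H84.SL.Targets
import Pool.Agent.H64.SC.Api

/-!
# MP_70ba79_ag, board `slg_modules`: row FBG
-/

set_option autoImplicit false

namespace Pool.Agent.H79.SL

open MvPolynomial SC Pool.Agent.H27.LV Pool.Agent.H84.SM Pool.Agent.H84.SL

lemma aeval_scale {σ k L : Type} [Field k] [Field L] [Algebra k L] (P : MvPolynomial σ k)
    (e : ℕ) (hP : P.IsHomogeneous e) (c : L) (x : σ → L) :
    aeval (fun i => c * x i) P = c ^ e * aeval x P := by
  rw [aeval_def, aeval_def, eval₂_eq, eval₂_eq, Finset.mul_sum]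
  refine Finset.sum_congr rfl fun m hm => ?_
  have h1 : ∑ i ∈ m.support, m i = e := by
    have h := hP (mem_support_iff.1 hm)
    rw [Finsupp.weight_apply, Finsupp.sum] at h
    simpa using h
  rw [← h1, ← Finset.prod_pow_eq_pow_sum]
  have h2 : ∏ i ∈ m.support, (c * x i) ^ m i = (∏ i ∈ m.support, c ^ m i) *
      ∏ i ∈ m.support, x i ^ m i := by
    rw [← Finset.prod_mul_distrib]
    exact Finset.prod_congr rfl fun i _ => mul_pow _ _ _
  rw [h2]
  ring

lemma ge_aeval {σ k K : Type} [Field k] [Field K] [Algebra k K] (v : DV k K) (z : σ → K)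
    (hz : ∀ i, ge v 0 (z i)) (P : MvPolynomial σ k) : ge v 0 (aeval z P) := by
  induction P using MvPolynomial.induction_on with
  | C a =>
    rw [aeval_C]
    exact ge_const v a
  | add p q hp hq =>
    rw [map_add]
    exact hp.add hq
  | mul_X p i hp =>
    rw [map_mul, aeval_X]
    have h := hp.mul (hz i)
    rwa [add_zero] at h

/-- the order of a form of degree `m` at a point -/
lemma ord_form {σ k K : Type} [Field k] [Field K] [Algebra k K] (v : DV k K) (y : σ → K)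
    (P : MvPolynomial σ k) (m : ℕ) (hP : P.IsHomogeneous m) (j : σ) (hj : y j ≠ 0)
    (hmin : ∀ i, y i ≠ 0 → v.ord (y j) ≤ v.ord (y i)) (hne : aeval y P ≠ 0) :
    (m : ℤ) * v.ord (y j) ≤ v.ord (aeval y P) := by
  have hinv : (y j)⁻¹ ≠ 0 := inv_ne_zero hj
  have h1 : ge v 0 (aeval (fun i => (y j)⁻¹ * y i) P) := by
    apply ge_aeval
    intro i
    by_cases hi : y i = 0
    · left
      rw [hi, mul_zero]
    · right
      rw [DV.ord_mul' v hinv hi, DV.ord_inv]
      have := hmin i hi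
      omega
  rw [aeval_scale P m hP] at h1
  rcases h1 with h1 | h1
  · exact absurd ((mul_eq_zero.1 h1).resolve_left (pow_ne_zero _ hinv)) hne
  · rw [DV.ord_mul' v (pow_ne_zero _ hinv) hne, DV.ord_pow, DV.ord_inv] at h1
    linarith

lemma crv_of {k K : Type} [Field k] [Field K] [Algebra k K] (G : MvPolynomial (Fin 3) k) (d : ℕ)
    (hG : G.IsHomogeneous d) (X : Fin 3 → K) (S : Finset (DV k K))
    (h : ∀ v, v ∉ S → ∃ o : ℤ, (∀ i, X i ≠ 0 → o ≤ v.ord (X i)) ∧
      (∃ i, X i ≠ 0 ∧ v.ord (X i) = o) ∧ v.ord (aeval X G) = d * o)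
    (hne : aeval X G ≠ 0) (j : Fin 3) (hj : X j ≠ 0) : Crv G d (fun i => X i / X j) S := by
  have hinv : (X j)⁻¹ ≠ 0 := inv_ne_zero hj
  have hfun : (fun i => X i / X j) = fun i => (X j)⁻¹ * X i := by
    funext i
    rw [div_eq_mul_inv, mul_comm]
  rw [hfun]
  have hax := aeval_scale G d hG (X j)⁻¹ X
  refine ⟨⟨j, inv_mul_cancel₀ hj⟩, ?_, ?_⟩
  · rw [hax]
    exact mul_ne_zero (pow_ne_zero _ hinv) hne
  · intro v hv
    obtain ⟨o, hmin, ⟨i0, hi0, hio⟩, hord⟩ := h v hv
    have hp : (poleOrder v (fun i => (X j)⁻¹ * X i) : ℤ) = v.ord (X j) - o := by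
      have hle : o ≤ v.ord (X j) := hmin j hj
      apply le_antisymm
      · obtain ⟨p, hp⟩ := Int.eq_ofNat_of_zero_le (sub_nonneg.2 hle)
        rw [hp]
        have : poleOrder v (fun i => (X j)⁻¹ * X i) ≤ p := by
          refine Finset.sup_le fun i _ => ?_
          change (-(v.ord ((X j)⁻¹ * X i))).toNat ≤ p
          by_cases hi : X i = 0
          · rw [hi, mul_zero, v.ord_zero]
            simp
          · rw [DV.ord_mul' v hinv hi, DV.ord_inv]
            have := hmin i hi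
            omega
        exact_mod_cast this
      · have h1 : (-(v.ord ((X j)⁻¹ * X i0))).toNat ≤
            poleOrder v (fun i => (X j)⁻¹ * X i) :=
          Finset.le_sup (f := fun i => (-(v.ord ((X j)⁻¹ * X i))).toNat) (Finset.mem_univ i0)
        rw [DV.ord_mul' v hinv hi0, DV.ord_inv] at h1
        omega
    rw [hax, DV.ord_mul' v (pow_ne_zero _ hinv) hne, DV.ord_pow, DV.ord_inv, hord, hp]
    ring

theorem pf_FBG (hFB : T_FB) : T_FBG := by
  intro k _ _ _ d G hd hG hsm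
  obtain ⟨B, N, Ψ, hΨ, hΨh, hB⟩ := hFB k G d hd ⟨hG, hsm⟩
  refine ⟨B, N, Ψ, hΨ, hΨh, ?_⟩
  intro n m P hP K _ _ _ htr D hD y S hS hGX hΨX hnc
  obtain ⟨X, hX⟩ : ∃ X : Fin 3 → K, X = fun i => aeval y (P i) := ⟨_, rfl⟩
  have hXi : ∀ i, aeval y (P i) = X i := fun i => by rw [hX]
  simp only [hXi] at hS hGX hΨX hnc ⊢
  have hS' : ∀ v, v ∉ S → ∃ o : ℤ, (∀ i, X i ≠ 0 → o ≤ v.ord (X i)) ∧
      (∃ i, X i ≠ 0 ∧ v.ord (X i) = o) ∧ v.ord (aeval X G) = d * o := by
    intro v hv
    obtain ⟨j, hj, hmin, ⟨i, hi, hio⟩, hord⟩ := hS v hv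
    refine ⟨m * v.ord (y j), ?_, ⟨i, hi, hio⟩, ?_⟩
    · intro i' hi'
      rw [← hXi i'] at hi' ⊢
      exact ord_form v y (P i') m (hP i') j hj hmin hi'
    · have h1 : (fun i => X i) = X := rfl
      rw [h1] at hord
      rw [hord]
      ring
  have key : ∀ j, X j ≠ 0 → 1 ≤ canDeg D + S.card ∧
      deg k (fun i => X i / X j) ≤ B * (canDeg D + S.card) := by
    intro j hj
    have hcrv := crv_of G d hG X S hS' hGX j hj
    have hinv : (X j)⁻¹ ≠ 0 := inv_ne_zero hj
    refine hB K htr D hD _ S hcrv ?_ ?_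
    · have hfun : (fun i => X i / X j) = fun i => (X j)⁻¹ * X i := by
        funext i
        rw [div_eq_mul_inv, mul_comm]
      rw [hfun, aeval_scale Ψ N hΨh]
      exact mul_ne_zero (pow_ne_zero _ hinv) hΨX
    · by_contra hcon
      push Not at hcon
      obtain ⟨a, b, hb, hab⟩ := hnc
      apply hab
      obtain ⟨ca, hca⟩ := hcon a
      obtain ⟨cb, hcb⟩ := hcon b
      refine ⟨ca / cb, ?_⟩
      rw [map_div₀, hca, hcb]
      field_simp
  obtain ⟨a, b, hb, hab⟩ := hnc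
  exact ⟨(key b hb).1, fun j hj => (key j hj).2⟩

end Pool.Agent.H79.SL
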